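import Pool.Agent.N86.WordOp

/-!
The words that define a group operation on all free nilpotent groups are exactly `ab` and `ba`.
-/

set_option autoImplicit false

namespace Pool.Agent.Results.MP_c4ae4c_al.OnlyTwoWords

/-- the free nilpotent group `F_n / γ_k(F_n)`, where `γ_1 = F_n` and `γ_{k+1} = [γ_k, F_n]`
(Mathlib's lower central series starts with the index `0`) -/
abbrev FreeNilp (n k : ℕ) : Type :=
  FreeGroup (Fin n) ⧸ (⊤ : Subgroup (FreeGroup (Fin n))).lowerCentralSeries (k - 1)

/-- the value `w(x, y)`: substitute `a ↦ x`, `b ↦ y` in the word `w` of the free group on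
`a = of 0` and `b = of 1` -/
def value {G : Type} [Group G] (w : FreeGroup (Fin 2)) (x y : G) : G := FreeGroup.lift ![x, y] w

/-- the operation `x * y = w(x, y)` makes the underlying set of `G` into a group -/
def IsGroupOp (G : Type) [Group G] (w : FreeGroup (Fin 2)) : Prop :=
  (∀ x y z : G, value w (value w x y) z = value w x (value w y z)) ∧
    ∃ e : G, (∀ x : G, value w e x = x ∧ value w x e = x) ∧
      ∀ x : G, ∃ y : G, value w y x = e ∧ value w x y = e

/-- An element `w` of the free group on `a, b` (that is, a reduced word) has property (N) if and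
only if `w = ab` or `w = ba`. -/
theorem result (w : FreeGroup (Fin 2)) :
    (∀ n k : ℕ, 2 ≤ n → 1 ≤ k → IsGroupOp (FreeNilp n k) w) ↔
      w = FreeGroup.of 0 * FreeGroup.of 1 ∨ w = FreeGroup.of 1 * FreeGroup.of 0 :=
  Pool.Agent.N86.WordOp.main w

end Pool.Agent.Results.MP_c4ae4c_al.OnlyTwoWords
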